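import Pool.Agent.H76.QE.Targets

/-!
# POS: positivity of the density of the quadratic system (board qd_modules)
-/

set_option autoImplicit false

namespace Pool.Agent.H93.QD

open Finset Pool.Agent.H76.QE
open Pool.Agent.H1.LP (supp ip comb kk S_DISP S_COL S_SMALL)
open H43.PS (PosDeg Low av)
open Pool.Agent.H73.OX (ch)

theorem comb_neg' {p M N : ℕ} (A : Fin M → Fin N → ZMod p) (C : Fin M → ZMod p) :
    comb A (-C) = -comb A C := by
  funext j
  simp only [comb, Pi.neg_apply, neg_mul, sum_neg_distrib]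

theorem comb_sub' {p M N : ℕ} (A : Fin M → Fin N → ZMod p) (C C' : Fin M → ZMod p) :
    comb A (C - C') = comb A C - comb A C' := by
  funext j
  simp only [comb, Pi.sub_apply, sub_mul, sum_sub_distrib]

theorem supp_neg' {p M : ℕ} (C : Fin M → ZMod p) : supp (-C) = supp C := by
  ext j
  simp only [supp, mem_filter, mem_univ, true_and, Pi.neg_apply, ne_eq, neg_eq_zero]

theorem supp_sub_card {p M : ℕ} (C C' : Fin M → ZMod p) :
    (supp (C - C')).card ≤ (supp C).card + (supp C').card := by
  have hsub : supp (C - C') ⊆ supp C ∪ supp C' := by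
    intro i hi
    simp only [supp, mem_filter, mem_univ, true_and, Pi.sub_apply, mem_union] at hi ⊢
    by_contra hc
    push Not at hc
    exact hi (by rw [hc.1, hc.2, sub_zero])
  exact (card_le_card hsub).trans (card_union_le _ _)

theorem ip_neg_l {p M : ℕ} (C c : Fin M → ZMod p) : ip (-C) c = -ip C c := by
  simp only [ip, Pi.neg_apply, neg_mul, sum_neg_distrib]

theorem ip_sub_l {p M : ℕ} (C C' c : Fin M → ZMod p) : ip (C - C') c = ip C c - ip C' c := by
  simp only [ip, Pi.sub_apply, sub_mul, sum_sub_distrib]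

theorem mem_CC {p M t : ℕ} [NeZero p] (C : Fin M → ZMod p) :
    C ∈ CC p M t ↔ (supp C).card ≤ t := by
  simp only [CC, mem_filter, mem_univ, true_and]

theorem mem_BB {p N h : ℕ} [NeZero p] (v : Fin N → ZMod p) :
    v ∈ BB p N h ↔ (supp v).card ≤ h := by
  simp only [BB, mem_filter, mem_univ, true_and]

/-- the Schur sums over the rows -/
theorem row_le {p M N E h t₀ t₁ τ s : ℕ} [Fact p.Prime] (A : Fin M → Fin N → ZMod p) (hV : T_COV)
    (hN : NoStar A E h t₀ t₁) (hE : 1 ≤ E) (h4 : 2 * τ ≤ t₁) (β : ℝ) (hβ : 0 ≤ β)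
    (x : Fin N → ZMod p) (g : (Fin M → ZMod p) → ℝ) (hg0 : ∀ C, 0 ≤ g C)
    (hg : ∀ C : Fin M → ZMod p, s < (supp C).card → g C * (2 * E * (CC p M t₀).card) ≤ β)
    (P : (Fin N → ZMod p) → Prop) [DecidablePred P]
    (hP : ∀ y ∈ BB p N h, P y → ∀ C : Fin M → ZMod p, comb A C = y - x → s < (supp C).card) :
    ∑ y ∈ BB p N h, (if P y then ∑ C ∈ CC p M τ, (if comb A C = y - x then g C else 0) else 0)
      ≤ β := by
  classical
  have hn0 : (0 : ℝ) < 2 * E * (CC p M t₀).card := by
    have h1 : 0 < (CC p M t₀).card := by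
      refine card_pos.mpr ⟨0, ?_⟩
      rw [mem_CC]
      simp [supp]
    have h2 : (0 : ℝ) < ((CC p M t₀).card : ℝ) := by exact_mod_cast h1
    have h3 : (0 : ℝ) < (E : ℝ) := by exact_mod_cast hE
    positivity
  set W : Finset (Fin M → ZMod p) := (CC p M τ).filter
    (fun C => (supp (x + comb A C)).card ≤ h ∧ s < (supp C).card) with hW
  have hWc : (W.card : ℝ) ≤ 2 * E * (CC p M t₀).card := by
    have h1 : W.card ≤ 2 * E * (CC p M t₀).card := by
      refine le_trans (card_le_card ?_) (hV p M N E h t₀ t₁ τ A hN hE h4 x)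
      intro C hC
      rw [hW, mem_filter] at hC
      rw [mem_filter]
      exact ⟨hC.1, hC.2.1⟩
    exact_mod_cast h1
  have h5 : ∑ y ∈ BB p N h,
      (if P y then ∑ C ∈ CC p M τ, (if comb A C = y - x then g C else 0) else 0) ≤
      ∑ C ∈ W, g C := by
    have e1 : ∑ y ∈ BB p N h,
        (if P y then ∑ C ∈ CC p M τ, (if comb A C = y - x then g C else 0) else 0) =
        ∑ C ∈ CC p M τ, ∑ y ∈ BB p N h, (if P y ∧ comb A C = y - x then g C else 0) := by
      rw [sum_comm]
      refine sum_congr rfl fun y _ => ?_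
      by_cases hy : P y
      · rw [if_pos hy]
        refine sum_congr rfl fun C _ => ?_
        by_cases hc : comb A C = y - x
        · rw [if_pos hc, if_pos ⟨hy, hc⟩]
        · rw [if_neg hc, if_neg (fun hh => hc hh.2)]
      · rw [if_neg hy]
        symm
        refine sum_eq_zero fun C _ => ?_
        rw [if_neg (fun hh => hy hh.1)]
    rw [e1, hW, sum_filter]
    refine sum_le_sum fun C hC => ?_
    by_cases hex : ∃ y ∈ BB p N h, P y ∧ comb A C = y - x
    · obtain ⟨y, hy, hPy, hyC⟩ := hex
      have hyx : x + comb A C = y := by rw [hyC]; abel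
      have hcond : (supp (x + comb A C)).card ≤ h ∧ s < (supp C).card := by
        refine ⟨?_, hP y hy hPy C hyC⟩
        rw [hyx]
        exact (mem_BB y).mp hy
      rw [if_pos hcond]
      have e2 : ∑ y' ∈ BB p N h, (if P y' ∧ comb A C = y' - x then g C else 0) ≤
          ∑ y' ∈ BB p N h, (if y' = y then g C else 0) := by
        refine sum_le_sum fun y' _ => ?_
        by_cases hh : P y' ∧ comb A C = y' - x
        · have hy' : y' = y := by
            rw [← hyx, hh.2]
            abel
          rw [if_pos hh, if_pos hy']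
        · rw [if_neg hh]
          by_cases h' : y' = y
          · rw [if_pos h']; exact hg0 C
          · rw [if_neg h']
      refine e2.trans ?_
      rw [sum_ite_eq', if_pos hy]
    · have e3 : ∑ y ∈ BB p N h, (if P y ∧ comb A C = y - x then g C else 0) = 0 := by
        refine sum_eq_zero fun y hy => ?_
        rw [if_neg]
        intro hh
        exact hex ⟨y, hy, hh⟩
      rw [e3]
      by_cases hcond : (supp (x + comb A C)).card ≤ h ∧ s < (supp C).card
      · rw [if_pos hcond]; exact hg0 C
      · rw [if_neg hcond]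
  refine h5.trans ?_
  have h6 : ∀ C ∈ W, g C ≤ β / (2 * E * (CC p M t₀).card) := by
    intro C hC
    rw [hW, mem_filter] at hC
    rw [le_div_iff₀ hn0]
    exact hg C hC.2.2
  calc ∑ C ∈ W, g C ≤ ∑ _C ∈ W, β / (2 * E * (CC p M t₀).card) := sum_le_sum h6
    _ = (W.card : ℝ) * (β / (2 * E * (CC p M t₀).card)) := by rw [sum_const, nsmul_eq_mul]
    _ ≤ (2 * E * (CC p M t₀).card) * (β / (2 * E * (CC p M t₀).card)) :=
        mul_le_mul_of_nonneg_right hWc (div_nonneg hβ hn0.le)
    _ = β := by
        rw [mul_comm]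
        exact div_mul_cancel₀ β hn0.ne'

theorem pf_POS (hK : T_KEX) (hP : T_PSV) (hF : T_FOU) (hT : T_PTH) (hC : T_CON) (hV : T_COV)
    (hS : T_SCH) : T_POS := by
  classical
  intro p R N E h t₀ s τ t₁ hp A b β hE hβ hI hN hts h12 h4 h2 hKF f hf
  obtain ⟨a, ha⟩ := hF p N h f hf
  have hpath := hT p (R + R) N E h t₀ t₁ s A hN hE hts (by nlinarith)
  obtain ⟨rel, κ, hrefl, hsymm, htrans, hκ, hcoc, hout⟩ :=
    hC p (R + R) N h s (4 * E * s) t₁ A hI (by nlinarith) hpath
  have hkex := hK p R N τ A b (BB p N h) a f ha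
  have hpsv := hP p N (BB p N h) a f ha
  set k : (Fin N → ZMod p) → (Fin N → ZMod p) → ℂ := fun x y =>
    ∑ C ∈ (CC p (R + R) τ).filter (fun C => comb A C = y - x), KF b C with hk
  have hsum : ∑ z, (D0 A τ b z + β) * f z ^ 2 =
      (p : ℝ) ^ N * ((∑ x ∈ BB p N h, ∑ y ∈ BB p N h, a x * (starRingEnd ℂ) (a y) * k x y).re +
        β * ∑ x ∈ BB p N h, ‖a x‖ ^ 2) := by
    simp only [add_mul, sum_add_distrib]
    rw [hkex, ← mul_sum, hpsv]
    ring
  rw [hsum]
  refine mul_nonneg (by positivity) ?_
  -- the two parts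
  have hsplit : (∑ x ∈ BB p N h, ∑ y ∈ BB p N h, a x * (starRingEnd ℂ) (a y) * k x y) =
      (∑ x ∈ BB p N h, ∑ y ∈ BB p N h,
        if rel x y then a x * (starRingEnd ℂ) (a y) * k x y else 0) +
      ∑ x ∈ BB p N h, ∑ y ∈ BB p N h,
        a x * (starRingEnd ℂ) (a y) * (if rel x y then 0 else k x y) := by
    rw [← sum_add_distrib]
    refine sum_congr rfl fun x _ => ?_
    rw [← sum_add_distrib]
    refine sum_congr rfl fun y _ => ?_
    by_cases hxy : rel x y
    · rw [if_pos hxy, if_pos hxy, mul_zero, add_zero]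
    · rw [if_neg hxy, if_neg hxy, zero_add]
  rw [hsplit, Complex.add_re]
  have hin : 0 ≤ (∑ x ∈ BB p N h, ∑ y ∈ BB p N h,
      if rel x y then a x * (starRingEnd ℂ) (a y) * k x y else 0).re := by
    have hkk : ∀ x ∈ BB p N h, ∀ y ∈ BB p N h, rel x y → k x y = KF b (κ x y) := by
      intro x hx y hy hxy
      have h1 := hκ x hx y hy hxy
      have h3 : (CC p (R + R) τ).filter (fun C => comb A C = y - x) = {κ x y} := by
        ext C
        rw [mem_filter, mem_singleton, mem_CC]
        constructor
        · rintro ⟨hc1, hc2⟩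
          have h5 : comb A (C - κ x y) = 0 := by
            rw [comb_sub', hc2, h1.1, sub_self]
          have h6 : (supp (C - κ x y)).card ≤ t₁ := by
            have := supp_sub_card C (κ x y)
            omega
          exact sub_eq_zero.mp (hI _ h6 h5)
        · rintro rfl
          exact ⟨by omega, h1.1⟩
      rw [hk]
      simp only
      rw [h3, sum_singleton]
    have e1 : (∑ x ∈ BB p N h, ∑ y ∈ BB p N h,
        if rel x y then a x * (starRingEnd ℂ) (a y) * k x y else 0) =
        ((((p : ℝ) ^ R)⁻¹ : ℝ) : ℂ) * ∑ x' : Fin R → ZMod p, ∑ x ∈ BB p N h, ∑ y ∈ BB p N h,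
          if rel x y then a x * (starRingEnd ℂ) (a y) *
            (ZMod.stdAddChar (-ip (κ x y) (sh b x')) : ℂ) else 0 := by
      symm
      simp only [mul_sum]
      rw [sum_comm]
      refine sum_congr rfl fun x hx => ?_
      rw [sum_comm]
      refine sum_congr rfl fun y hy => ?_
      by_cases hxy : rel x y
      · simp only [if_pos hxy]
        rw [hkk x hx y hy hxy]
        unfold KF
        rw [mul_left_comm, mul_sum, mul_sum]
        refine sum_congr rfl fun x' _ => ?_
        push_cast
        ring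
      · simp only [if_neg hxy, mul_zero, sum_const_zero]
    rw [e1, Complex.re_ofReal_mul]
    refine mul_nonneg (by positivity) ?_
    rw [Complex.re_sum]
    refine sum_nonneg fun x' _ => ?_
    refine Pool.Agent.H73.OX.cocycle_nonneg (BB p N h) rel a
      (fun x y => (ZMod.stdAddChar (-ip (κ x y) (sh b x')) : ℂ)) hrefl hsymm htrans ?_
    intro x hx y hy z hz hxz hyz
    rw [hcoc x hx y hy z hz hxz hyz, Pool.Agent.H73.OX.conj_std, ← AddChar.map_add_eq_mul,
      ip_sub_l]
    congr 1
    ring
  have hnorm : ∀ x y : Fin N → ZMod p, ‖(if rel x y then (0 : ℂ) else k x y)‖ ≤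
      if ¬ rel x y then ∑ C ∈ CC p (R + R) τ, (if comb A C = y - x then ‖KF b C‖ else 0)
        else 0 := by
    intro x y
    by_cases hxy : rel x y
    · rw [if_pos hxy, if_neg (not_not.mpr hxy), norm_zero]
    · rw [if_neg hxy, if_pos hxy, hk]
      simp only
      rw [← sum_filter]
      exact norm_sum_le _ _
  have hrow : ∀ x ∈ BB p N h, ∑ y ∈ BB p N h, ‖(if rel x y then (0 : ℂ) else k x y)‖ ≤ β := by
    intro x hx
    refine (sum_le_sum fun y _ => hnorm x y).trans ?_
    exact row_le A hV hN hE h2 β hβ x (fun C => ‖KF b C‖) (fun C => norm_nonneg _) hKF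
      (fun y => ¬ rel x y) (fun y hy hxy C hC => hout x hx y hy hxy C hC)
  have hcol : ∀ y ∈ BB p N h, ∑ x ∈ BB p N h, ‖(if rel x y then (0 : ℂ) else k x y)‖ ≤ β := by
    intro y hy
    refine (sum_le_sum fun x _ => hnorm x y).trans ?_
    have e2 : ∀ x : Fin N → ZMod p,
        (if ¬ rel x y then ∑ C ∈ CC p (R + R) τ, (if comb A C = y - x then ‖KF b C‖ else 0)
          else 0) =
        (if ¬ rel x y then ∑ C ∈ CC p (R + R) τ, (if comb A C = x - y then ‖KF b (-C)‖ else 0)
          else 0) := by
      intro x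
      by_cases hxy : rel x y
      · rw [if_neg (not_not.mpr hxy), if_neg (not_not.mpr hxy)]
      · rw [if_pos hxy, if_pos hxy]
        refine sum_nbij' (fun C => -C) (fun C => -C) ?_ ?_ ?_ ?_ ?_
        · intro C hC
          rw [mem_CC] at hC ⊢
          rwa [supp_neg']
        · intro C hC
          rw [mem_CC] at hC ⊢
          rwa [supp_neg']
        · intro C _
          exact neg_neg C
        · intro C _
          exact neg_neg C
        · intro C _
          simp only [neg_neg]
          rw [comb_neg']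
          by_cases hc : comb A C = y - x
          · rw [if_pos hc, if_pos (by rw [hc]; abel)]
          · rw [if_neg hc, if_neg]
            intro h'
            apply hc
            rw [← neg_neg (comb A C), h']
            abel
    rw [sum_congr rfl (fun x _ => e2 x)]
    refine row_le (s := s) A hV hN hE h2 β hβ y (fun C => ‖KF b (-C)‖) (fun C => norm_nonneg _) ?_
      (fun x => ¬ rel x y) ?_
    · intro C hC
      exact hKF (-C) (by rwa [supp_neg'])
    · intro x hx hxy C hC
      have h7 := hout x hx y hy hxy (-C) (by rw [comb_neg', hC]; abel)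
      rwa [supp_neg'] at h7
  have hsch := hS (Fin N → ZMod p) (BB p N h) (fun x y => if rel x y then (0 : ℂ) else k x y) β
    hrow hcol a
  linarith

end Pool.Agent.H93.QD
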